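import Pool.Agent.GridS.Ip
import Pool.Agent.GridS.Concat
import Pool.Agent.GridS.Small
import Pool.Agent.GridS.Mono
import Pool.Agent.GridS.Size

/-!
# Unit disk graphs: a clique together with points in a generalised arithmetic progression

For all `k` and `s` the unit disk graphs whose vertex set is a clique together with vertices that
are placed in a generalised arithmetic progression of rank `k` and size polynomial in the number
of vertices have an implicit representation. In particular this holds for the co-bipartite unit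
disk graphs with a representation in which one of the two cliques lies on a polynomial grid, of
any scale and position; the points of the other clique are arbitrary.

Proof: for `p a = ∑ i, x i • g i` the condition `dist (p a) (p b) ≤ 1` is a linear inequality in
the monomials of degree at most two of `x` (`GridS/Mono`). Only polynomially bounded integer
vectors of monomials occur, so the real coefficients can be replaced by integers of polynomial
size (`GridS/Small`, on `Qdec/Lp`). The label of a vertex holds the monomials of its own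
coordinates and the integer coefficients of its own disk; the decoder computes the sign of an
inner product (`GridS/Ip`).
-/

set_option autoImplicit false

namespace Pool.Agent.Results.MP_4acde3_lc.GridSide

open Pool.Agent.Lib.PT Pool.Agent.ImpR Pool.Agent.GridS

/-- the numbers of a label -/
def fields (f : ℕ) (r z : ℕ → ℤ) : ℕ → ℕ := fun i =>
  if i = 0 then f else
    if (i - 1) % 4 = 0 then (r ((i - 1) / 4)).toNat else
    if (i - 1) % 4 = 1 then (-(r ((i - 1) / 4))).toNat else
    if (i - 1) % 4 = 2 then (z ((i - 1) / 4)).toNat else (-(z ((i - 1) / 4))).toNat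

lemma fields_zero (f : ℕ) (r z : ℕ → ℤ) : fields f r z 0 = f := rfl

lemma fields_one (f : ℕ) (r z : ℕ → ℤ) (j : ℕ) :
    fields f r z (4 * j + 1) = (r j).toNat := by
  have h1 : (4 * j + 1 - 1) % 4 = 0 := by omega
  have h2 : (4 * j + 1 - 1) / 4 = j := by omega
  simp only [fields, h1, h2]
  simp

lemma fields_two (f : ℕ) (r z : ℕ → ℤ) (j : ℕ) :
    fields f r z (4 * j + 2) = (-(r j)).toNat := by
  have h1 : (4 * j + 2 - 1) % 4 = 1 := by omega
  have h2 : (4 * j + 2 - 1) / 4 = j := by omega
  simp only [fields, h1, h2]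
  simp

lemma fields_three (f : ℕ) (r z : ℕ → ℤ) (j : ℕ) :
    fields f r z (4 * j + 3) = (z j).toNat := by
  have h1 : (4 * j + 3 - 1) % 4 = 2 := by omega
  have h2 : (4 * j + 3 - 1) / 4 = j := by omega
  simp only [fields, h1, h2]
  simp

lemma fields_four (f : ℕ) (r z : ℕ → ℤ) (j : ℕ) :
    fields f r z (4 * j + 4) = (-(z j)).toNat := by
  have h1 : (4 * j + 4 - 1) % 4 = 3 := by omega
  have h2 : (4 * j + 4 - 1) / 4 = j := by omega
  simp only [fields, h1, h2]
  simp

lemma fields_lt (f : ℕ) (r z : ℕ → ℤ) (T : ℕ) (hf : f < T) (hr : ∀ j, |r j| < T)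
    (hz : ∀ j, |z j| < T) (i : ℕ) : fields f r z i < T := by
  have key : ∀ y : ℤ, |y| < T → y.toNat < T := by
    intro y hy
    have h1 := le_abs_self y
    have h2 := abs_nonneg y
    omega
  have key' : ∀ y : ℤ, |y| < T → (-y).toNat < T := by
    intro y hy
    exact key (-y) (by rw [abs_neg]; exact hy)
  unfold fields
  split_ifs
  · exact hf
  · exact key _ (hr _)
  · exact key' _ (hr _)
  · exact key _ (hz _)
  · exact key' _ (hz _)

lemma inner_fields (m f f' : ℕ) (r z r' z' : ℕ → ℤ) :
    ∑ j ∈ Finset.range m, ((fields f r z (4 * j + 1) : ℤ) - fields f r z (4 * j + 2)) *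
      ((fields f' r' z' (4 * j + 3) : ℤ) - fields f' r' z' (4 * j + 4)) =
    ∑ j ∈ Finset.range m, r j * z' j := by
  apply Finset.sum_congr rfl
  intro j _
  rw [fields_one, fields_two, fields_three, fields_four]
  have h1 : ((r j).toNat : ℤ) - (-(r j)).toNat = r j := by omega
  have h2 : ((z' j).toNat : ℤ) - (-(z' j)).toNat = z' j := by omega
  rw [h1, h2]

/-- **Main theorem.** For all `k` and `s` there are one function `F` on bit strings, computed by a
Turing machine in polynomial time, and a constant `C` with the following property. Let `G` be a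
unit disk graph on `n` vertices with representation `p`, let `A` be a set of vertices such that
the vertices outside `A` form a clique, and let every point of `A` be a combination of
`g 0, ..., g (k - 1)` with integer coefficients of absolute value at most `n ^ s`. Then the
vertices of `G` have labels, bit strings of one length `L ≤ C * Nat.log 2 n`, such that for
distinct vertices `u` and `v` the value of `F` at the concatenation of the labels of `u` and `v`
is `[true]` if they are adjacent and `[false]` if they are not. -/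
theorem result (k s : ℕ) :
    ∃ (F : List Bool → List Bool) (C : ℕ),
      Nonempty (Turing.TM2ComputableInPolyTime (fun w : List Bool => w)
        (fun w : List Bool => w) F) ∧
      ∀ (V : Type) [Fintype V] (G : SimpleGraph V) (p : V → EuclideanSpace ℝ (Fin 2)),
        (∀ u v, u ≠ v → (G.Adj u v ↔ dist (p u) (p v) ≤ 1)) →
        ∀ A : Set V, (∀ u, u ∉ A → ∀ v, v ∉ A → u ≠ v → G.Adj u v) →
        ∀ g : Fin k → EuclideanSpace ℝ (Fin 2),
        (∀ a ∈ A, ∃ x : Fin k → ℤ, (∀ i, |x i| ≤ (Fintype.card V : ℤ) ^ s) ∧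
          p a = ∑ i, (x i : ℝ) • g i) →
        ∃ (l : V → List Bool) (L : ℕ), L ≤ C * Nat.log 2 (Fintype.card V) ∧
          (∀ v, (l v).length = L) ∧
          ∀ u v, u ≠ v →
            (G.Adj u v → F (l u ++ l v) = [true]) ∧
            (¬ G.Adj u v → F (l u ++ l v) = [false]) := by
  classical
  obtain ⟨m, c0, mon, hc0, hmon, hlin⟩ := monomials k
  obtain ⟨C, hC⟩ := size m.factorial (2 * s * m) (4 * m + 1)
  obtain ⟨dec, hdec, hspec⟩ := ip m
  obtain ⟨F, hF, hcat⟩ := concat (4 * m + 1) dec hdec
  refine ⟨F, C, hF, ?_⟩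
  intro V _ G p hG A hcl g hx
  by_cases h2 : Fintype.card V < 2
  · refine ⟨fun _ => [], 0, Nat.zero_le _, fun v => rfl, fun u v huv => ?_⟩
    exact absurd (Fintype.card_le_one_iff.1 (by omega) u v) huv
  rw [not_lt] at h2
  obtain ⟨w, hw1, hw0, hw2⟩ := hC _ h2
  set n := Fintype.card V with hn
  have hm : 0 < m := lt_of_le_of_lt (Nat.zero_le _) c0.2
  have hx' : ∀ a : V, ∃ x : Fin k → ℤ, a ∈ A → (∀ i, |x i| ≤ (n : ℤ) ^ s) ∧
      p a = ∑ i, (x i : ℝ) • g i := by
    intro a
    by_cases ha : a ∈ A
    · obtain ⟨x, h⟩ := hx a ha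
      exact ⟨x, fun _ => h⟩
    · exact ⟨0, fun h => absurd h ha⟩
  choose x hx using hx'
  have hW : ∀ v : V, ∃ W : Fin m → ℝ, ∀ y : Fin k → ℤ,
      dist (∑ i, (y i : ℝ) • g i) (p v) ≤ 1 ↔ ∑ j, (mon y j : ℝ) * W j ≤ 0 :=
    fun v => hlin g (p v)
  choose W hW using hW
  let M : ℕ := (n ^ s) ^ 2
  have hns : 1 ≤ n ^ s := Nat.one_le_pow _ _ (by omega)
  have hM : 1 ≤ M := Nat.one_le_pow _ _ hns
  have hrM : ∀ a : A, ∀ j, |mon (x a) j| ≤ (M : ℤ) := by
    intro a j
    have h := hmon (x a) ((n : ℤ) ^ s) (by exact_mod_cast hns) (hx a a.2).1 j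
    simpa [M] using h
  have hz : ∀ v : V, ∃ z : Fin m → ℤ, (∀ j, |z j| ≤ (m.factorial : ℤ) * (M : ℤ) ^ m) ∧
      ∀ a : A, ((∑ j, (mon (x a) j : ℝ) * W v j ≤ 0) → ∑ j, mon (x a) j * z j < 0) ∧
        (0 < ∑ j, (mon (x a) j : ℝ) * W v j → 0 < ∑ j, mon (x a) j * z j) := by
    intro v
    exact small m M hM (fun a : A => mon (x a)) hrM c0 (fun a => hc0 _) (W v)
  choose z hzb hzs using hz
  -- the vectors as functions on the natural numbers
  let R : V → ℕ → ℤ := fun v j => if h : j < m then (if v ∈ A then mon (x v) ⟨j, h⟩ else 0) else 0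
  let Z : V → ℕ → ℤ := fun v j => if h : j < m then z v ⟨j, h⟩ else 0
  let fl : V → ℕ := fun v => if v ∈ A then 1 else 0
  let N : V → ℕ → ℕ := fun v => fields (fl v) (R v) (Z v)
  have hbig : (m.factorial : ℤ) * (M : ℤ) ^ m < ((2 ^ w : ℕ) : ℤ) := by
    have h : m.factorial * M ^ m < 2 ^ w := by
      have e : M ^ m = n ^ (2 * s * m) := by
        show ((n ^ s) ^ 2) ^ m = _
        rw [← pow_mul, ← pow_mul]
        congr 1
        ring
      rw [e]
      exact hw1
    exact_mod_cast h
  have hMbig : (M : ℤ) ≤ (m.factorial : ℤ) * (M : ℤ) ^ m := by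
    have h : M ≤ m.factorial * M ^ m := by
      calc M = 1 * M ^ 1 := by ring
        _ ≤ m.factorial * M ^ m :=
          Nat.mul_le_mul (Nat.factorial_pos m) (Nat.pow_le_pow_right hM hm)
    exact_mod_cast h
  have hNlt : ∀ v i, N v i < 2 ^ w := by
    intro v i
    apply fields_lt
    · show (if v ∈ A then 1 else 0) < 2 ^ w
      have : 2 ≤ 2 ^ w := by
        calc 2 = 2 ^ 1 := rfl
          _ ≤ 2 ^ w := Nat.pow_le_pow_right (by norm_num) hw0
      split_ifs <;> omega
    · intro j
      show |(if h : j < m then (if v ∈ A then mon (x v) ⟨j, h⟩ else 0) else 0 : ℤ)| < _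
      split_ifs with h1 h3
      · exact lt_of_le_of_lt ((hrM ⟨v, h3⟩ ⟨j, h1⟩).trans hMbig) hbig
      · rw [abs_zero]; positivity
      · rw [abs_zero]; positivity
    · intro j
      show |(if h : j < m then z v ⟨j, h⟩ else 0 : ℤ)| < _
      split_ifs with h1
      · exact lt_of_le_of_lt (hzb v _) hbig
      · rw [abs_zero]; positivity
  have hsum : ∀ u v : V, u ∈ A → ∑ j ∈ Finset.range m, R u j * Z v j =
      ∑ j, mon (x u) j * z v j := by
    intro u v hu
    rw [Finset.sum_range]
    apply Finset.sum_congr rfl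
    intro j _
    simp only [R, Z, j.2, dif_pos, if_pos hu]
  have hfl1 : ∀ v, v ∈ A → N v 0 = 1 := by
    intro v hv
    show fields (fl v) (R v) (Z v) 0 = 1
    rw [fields_zero]
    simp only [fl, if_pos hv]
  have hfl0 : ∀ v, v ∉ A → N v 0 ≠ 1 := by
    intro v hv
    show fields (fl v) (R v) (Z v) 0 ≠ 1
    rw [fields_zero]
    simp only [fl, if_neg hv]
    decide
  have hsign : ∀ u v : V, u ∈ A →
      (dist (p u) (p v) ≤ 1 → ∑ j ∈ Finset.range m, ((N u (4 * j + 1) : ℤ) - N u (4 * j + 2)) *
          ((N v (4 * j + 3) : ℤ) - N v (4 * j + 4)) < 0) ∧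
      (¬ dist (p u) (p v) ≤ 1 →
        0 < ∑ j ∈ Finset.range m, ((N u (4 * j + 1) : ℤ) - N u (4 * j + 2)) *
          ((N v (4 * j + 3) : ℤ) - N v (4 * j + 4))) := by
    intro u v hu
    have e1 : ∑ j ∈ Finset.range m, ((N u (4 * j + 1) : ℤ) - N u (4 * j + 2)) *
          ((N v (4 * j + 3) : ℤ) - N v (4 * j + 4)) = ∑ j, mon (x u) j * z v j := by
      rw [← hsum u v hu]
      exact inner_fields m (fl u) (fl v) (R u) (Z u) (R v) (Z v)
    have e2 : dist (p u) (p v) ≤ 1 ↔ ∑ j, (mon (x u) j : ℝ) * W v j ≤ 0 := by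
      rw [(hx u hu).2]
      exact hW v (x u)
    rw [e1, e2]
    exact ⟨(hzs v ⟨u, hu⟩).1, fun h => (hzs v ⟨u, hu⟩).2 (not_le.1 h)⟩
  refine ⟨fun v => lab (4 * m + 1) w (N v), w + 1 + (4 * m + 1) * w, hw2,
    fun v => length_lab (fun i _ => hNlt v i), ?_⟩
  intro u v huv
  have hF' : F (lab (4 * m + 1) w (N u) ++ lab (4 * m + 1) w (N v)) =
      [dec (lab (4 * m + 1) w (N u)) (lab (4 * m + 1) w (N v))] :=
    hcat w (N u) (N v) (fun i _ => hNlt u i)
  obtain ⟨s1, s2, s3⟩ := hspec w (N u) (N v) (fun i _ => hNlt u i) (fun i _ => hNlt v i)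
  by_cases hu : u ∈ A
  · constructor
    · intro h
      rw [hF', (s1 (hfl1 u hu)).1 ((hsign u v hu).1 ((hG u v huv).1 h))]
    · intro h
      rw [hF', (s1 (hfl1 u hu)).2 ((hsign u v hu).2 (fun h' => h ((hG u v huv).2 h')))]
  · by_cases hv : v ∈ A
    · have hc : dist (p u) (p v) ≤ 1 ↔ dist (p v) (p u) ≤ 1 := by rw [dist_comm]
      constructor
      · intro h
        rw [hF', (s2 (hfl0 u hu) (hfl1 v hv)).1 ((hsign v u hv).1 (hc.1 ((hG u v huv).1 h)))]
      · intro h
        rw [hF', (s2 (hfl0 u hu) (hfl1 v hv)).2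
          ((hsign v u hv).2 (fun h' => h ((hG u v huv).2 (hc.2 h'))))]
    · constructor
      · intro _
        rw [hF', s3 (hfl0 u hu) (hfl0 v hv)]
      · intro h
        exact absurd (hcl u hu v hv huv) h

end Pool.Agent.Results.MP_4acde3_lc.GridSide
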