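import Pool.Agent.CmpLow.Inc
import Pool.Agent.CmpLow.Geo
import Pool.Agent.CmpLow.NumQ
import Pool.Agent.CmpLow.Ranks

/-!
# Co-bipartite unit disk graphs have no short comparison labels

For all large `n` there is a co-bipartite unit disk graph with at most `n` vertices whose
adjacency is not decided by order comparisons between labels that consist of `K` elements of a
linear order, for every `K ≤ c * log n / log (log n)`; in particular no bounded number of entries
suffices for all co-bipartite unit disk graphs.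

Proof: the vertices of one clique are the `N * (2 * N ^ 2)` points `(x, y)` of a grid, scaled
down; the vertices of the other clique are two almost equal unit disks for each of the `N ^ 3`
lines `y = a * x + b`, the first with exactly the points on and below the line, the second with
exactly the points below the line (`Pool/Agent/CmpLow/Geo.lean`). Each line contains `N` points.
If adjacency were decided by comparisons, the incidences between points and lines would be
decided by comparisons; a relation of this kind without `K_{2,2}` has only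
`N ^ 3 * (4 * K ^ 2 * h) ^ K + 2 * N ^ 3 * h ^ K` members, where `h = O(log N)` (dyadic boxes,
`Pool/Agent/CmpLow/Inc.lean`), but there are `N ^ 4` incidences.
-/

set_option autoImplicit false

namespace Pool.Agent.Results.MP_4acde3_lc.NoComparisonLabels

open Pool.Agent.CmpLow

/-! ### Assembly -/

/-- the points of the grid -/
abbrev PT (N : ℕ) : Type := Fin N × Fin (2 * N ^ 2)
/-- the lines `y = a * x + b` -/
abbrev LN (N : ℕ) : Type := Fin N × Fin (N ^ 2)

lemma many_incidences (N : ℕ) (I : PT N → LN N → Prop)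
    (hI : ∀ x l, I x l ↔ (x.2 : ℕ) = l.1 * x.1 + l.2) :
    N ^ 4 ≤ Nat.card {x : PT N × LN N // I x.1 x.2} := by
  classical
  have hlt : ∀ (a x : Fin N) (b : Fin (N ^ 2)), (a : ℕ) * x + b < 2 * N ^ 2 := by
    intro a x b
    have h1 : (a : ℕ) * x ≤ N * N := Nat.mul_le_mul a.2.le x.2.le
    have h2 := b.2
    nlinarith
  let f : (Fin N × Fin N) × Fin (N ^ 2) → {x : PT N × LN N // I x.1 x.2} := fun t =>
    ⟨((t.1.2, ⟨(t.1.1 : ℕ) * t.1.2 + t.2, hlt _ _ _⟩), (t.1.1, t.2)), by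
      rw [hI]⟩
  have hf : Function.Injective f := by
    rintro ⟨⟨a, x⟩, b⟩ ⟨⟨a', x'⟩, b'⟩ h
    have h' := congrArg Subtype.val h
    simp only [f, Prod.mk.injEq] at h'
    obtain ⟨⟨h1, -⟩, h2, h3⟩ := h'
    rw [h1, h2, h3]
  have := Nat.card_le_card_of_injective f hf
  refine le_trans (le_of_eq ?_) this
  rw [Nat.card_eq_fintype_card]
  simp only [Fintype.card_prod, Fintype.card_fin]
  ring

lemma line_free (N : ℕ) (p p' : PT N) (l l' : LN N) (hne : p ≠ p')
    (h1 : (p.2 : ℕ) = l.1 * p.1 + l.2) (h2 : (p'.2 : ℕ) = l.1 * p'.1 + l.2)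
    (h3 : (p.2 : ℕ) = l'.1 * p.1 + l'.2) (h4 : (p'.2 : ℕ) = l'.1 * p'.1 + l'.2) : l = l' := by
  obtain ⟨x, y⟩ := p
  obtain ⟨x', y'⟩ := p'
  obtain ⟨a, b⟩ := l
  obtain ⟨a', b'⟩ := l'
  simp only at h1 h2 h3 h4
  have hx : (x : ℕ) ≠ x' := by
    intro hxx
    apply hne
    have hy : (y : ℕ) = y' := by rw [h1, h2, hxx]
    rw [Fin.ext hxx, Fin.ext hy]
  have e1 : ((y : ℕ) : ℤ) = a * x + b := by rw [h1]; push_cast; ring
  have e2 : ((y' : ℕ) : ℤ) = a * x' + b := by rw [h2]; push_cast; ring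
  have e3 : ((y : ℕ) : ℤ) = a' * x + b' := by rw [h3]; push_cast; ring
  have e4 : ((y' : ℕ) : ℤ) = a' * x' + b' := by rw [h4]; push_cast; ring
  have e5 : (((a : ℕ) : ℤ) - a') * ((x : ℕ) - x') = 0 := by linear_combination e3 - e1 - e4 + e2
  have hx' : (((x : ℕ) : ℤ) - x') ≠ 0 := by
    intro h0
    apply hx
    exact_mod_cast sub_eq_zero.1 h0
  have ha : (((a : ℕ) : ℤ) - a') = 0 := by
    rcases mul_eq_zero.1 e5 with h0 | h0
    · exact h0
    · exact absurd h0 hx'
  have ha' : (a : ℕ) = a' := by exact_mod_cast sub_eq_zero.1 ha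
  have hb' : (b : ℕ) = b' := by
    have : (a' : ℕ) * x + b = a' * x + b' := by rw [← h3, h1, ha']
    omega
  rw [Fin.ext ha', Fin.ext hb']

theorem main (r : ℕ) :
    ∃ (V : Type) (_ : Fintype V) (G : SimpleGraph V) (p : V → EuclideanSpace ℝ (Fin 2))
      (A : Set V), Fintype.card V = 4 * (2 ^ r) ^ 3 ∧
      (∀ u v, u ≠ v → (G.Adj u v ↔ dist (p u) (p v) ≤ 1)) ∧
      (∀ u, u ∈ A → ∀ v, v ∈ A → u ≠ v → G.Adj u v) ∧
      (∀ u, u ∉ A → ∀ v, v ∉ A → u ≠ v → G.Adj u v) ∧
      ∀ K : ℕ, 0 < K →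
        (4 * K) ^ K * K ^ K * (3 * r + 2 + K) ^ K + 2 * (3 * r + 2 + K) ^ K < 2 ^ r →
        ∀ (α : Type) [LinearOrder α] (l : V → Fin K → α),
        ∃ u ∈ A, ∃ u' ∈ A, ∃ v, v ∉ A ∧ G.Adj u v ∧ ¬ G.Adj u' v ∧
          (∀ i j, l u i ≤ l u j ↔ l u' i ≤ l u' j) ∧
          (∀ i j, l u i ≤ l v j ↔ l u' i ≤ l v j) ∧
          (∀ i j, l v j ≤ l u i ↔ l v j ≤ l u' i) := by
  classical
  set N : ℕ := 2 ^ r with hN
  have hNpos : 0 < N := by positivity
  obtain ⟨pP, pB, hPP, hBB, hT, hF⟩ := geo N hNpos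
  let V : Type := PT N ⊕ (LN N × Bool)
  let pos : V → EuclideanSpace ℝ (Fin 2) := Sum.elim pP pB
  let G : SimpleGraph V :=
    { Adj := fun u v => u ≠ v ∧ dist (pos u) (pos v) ≤ 1
      symm := ⟨fun u v h => ⟨h.1.symm, by rw [dist_comm]; exact h.2⟩⟩
      loopless := ⟨fun u h => h.1 rfl⟩ }
  have hG : ∀ u v, G.Adj u v ↔ u ≠ v ∧ dist (pos u) (pos v) ≤ 1 := fun u v => Iff.rfl
  have hcard : Fintype.card V = 4 * N ^ 3 := by
    simp only [V, PT, LN, Fintype.card_sum, Fintype.card_prod, Fintype.card_fin,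
      Fintype.card_bool]
    ring
  refine ⟨V, inferInstance, G, pos, Set.range Sum.inl, hcard, ?_, ?_, ?_, ?_⟩
  · intro u v huv
    rw [hG]
    exact ⟨fun h => h.2, fun h => ⟨huv, h⟩⟩
  · rintro u ⟨x, rfl⟩ v ⟨y, rfl⟩ huv
    exact (hG _ _).2 ⟨huv, hPP x y⟩
  · rintro (x | x) hu (y | y) hv huv
    · exact absurd ⟨x, rfl⟩ hu
    · exact absurd ⟨x, rfl⟩ hu
    · exact absurd ⟨y, rfl⟩ hv
    · exact (hG _ _).2 ⟨huv, hBB x y⟩
  · intro K hK hnum α _ l
    by_contra hcon
    have hkey : ∀ u ∈ Set.range (Sum.inl : PT N → V), ∀ u' ∈ Set.range (Sum.inl : PT N → V),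
        ∀ v, v ∉ Set.range (Sum.inl : PT N → V) →
        (∀ i j, l u i ≤ l u j ↔ l u' i ≤ l u' j) →
        (∀ i j, l u i ≤ l v j ↔ l u' i ≤ l v j) →
        (∀ i j, l v j ≤ l u i ↔ l v j ≤ l u' i) → G.Adj u v → G.Adj u' v := by
      intro u hu u' hu' v hv h1 h2 h3 h4
      by_contra h5
      exact hcon ⟨u, hu, u', hu', v, hv, h4, h5, h1, h2, h3⟩
    obtain ⟨ρ, hρ, hρ'⟩ := ranks l
    let κ : PT N → Fin K → ℕ := fun x i => ρ (Sum.inl x) i
    let τ : LN N → Bool × Fin K → ℕ := fun m q => ρ (Sum.inr (m, q.1)) q.2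
    -- the inner order pattern of the label of a point, as a map from entries to ranks
    have hcol : ∀ x : PT N, ∃ σ : Fin K → Fin K, ∀ i j, σ i ≤ σ j ↔ κ x i ≤ κ x j := by
      intro x
      obtain ⟨ρ₁, h₁, h₂⟩ := ranks (fun _ : Unit => κ x)
      have h₃ : ∀ i, ρ₁ () i < K := by
        intro i
        have := h₁ () i
        simpa using this
      exact ⟨fun i => ⟨ρ₁ () i, h₃ i⟩, fun i j => h₂ () i () j⟩
    choose col hcol' using hcol
    let I : PT N → LN N → Prop := fun x m => (x.2 : ℕ) = m.1 * x.1 + m.2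
    have hI : ∀ x m, I x m ↔ dist (pP x) (pB (m, true)) ≤ 1 ∧
        ¬ dist (pP x) (pB (m, false)) ≤ 1 := by
      intro x m
      rw [hT, hF]
      show (x.2 : ℕ) = m.1 * x.1 + m.2 ↔ _
      omega
    have hstep : ∀ x x' m e, col x = col x' →
        (∀ i q, (κ x i ≤ τ m q ↔ κ x' i ≤ τ m q) ∧ (τ m q ≤ κ x i ↔ τ m q ≤ κ x' i)) →
        dist (pP x) (pB (m, e)) ≤ 1 → dist (pP x') (pB (m, e)) ≤ 1 := by
      intro x x' m e hc hq hd
      have hnot : (Sum.inr (m, e) : V) ∉ Set.range (Sum.inl : PT N → V) := by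
        rintro ⟨y, hy⟩
        exact Sum.inl_ne_inr hy
      have := hkey (Sum.inl x) ⟨x, rfl⟩ (Sum.inl x') ⟨x', rfl⟩ (Sum.inr (m, e)) hnot ?_ ?_ ?_
        ((hG _ _).2 ⟨Sum.inl_ne_inr, hd⟩)
      · exact ((hG _ _).1 this).2
      · intro i j
        have h2 : κ x i ≤ κ x j ↔ κ x' i ≤ κ x' j := by
          rw [← hcol', ← hcol', hc]
        rw [← hρ', ← hρ']
        exact h2
      · intro i j
        rw [← hρ', ← hρ']
        exact (hq i (e, j)).1
      · intro i j
        rw [← hρ', ← hρ']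
        exact (hq i (e, j)).2
    have hV : Fintype.card V * K ≤ 2 ^ (3 * r + 2 + K) := by
      have h2 : K ≤ 2 ^ K := Nat.lt_two_pow_self.le
      calc Fintype.card V * K = 4 * N ^ 3 * K := by rw [hcard]
        _ ≤ 4 * N ^ 3 * 2 ^ K := Nat.mul_le_mul_left _ h2
        _ = 2 ^ (3 * r + 2 + K) := by
          rw [hN, pow_add, pow_add, pow_mul' 2 3 r]
          ring
    have : Nonempty (Bool × Fin K) := ⟨(true, ⟨0, hK⟩)⟩
    have hb := inc_bound (K := K) (h := 3 * r + 2 + K) (Q := Bool × Fin K)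
      (C := Fin K → Fin K)
      κ τ col I (by omega) (fun x i => (hρ _ _).trans_le hV) (fun m q => (hρ _ _).trans_le hV)
      (by
        intro x x' m hc hq hx
        rw [hI] at hx ⊢
        refine ⟨hstep x x' m true hc hq hx.1, fun hd => hx.2 ?_⟩
        exact hstep x' x m false hc.symm (fun i q => ⟨(hq i q).1.symm, (hq i q).2.symm⟩) hd)
      (fun x x' m m' hne h1 h2 h3 h4 => line_free N x x' m m' hne h1 h2 h3 h4)
    have hm := many_incidences N I (fun x m => Iff.rfl)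
    have hfin := hm.trans hb
    simp only [PT, LN, Fintype.card_prod, Fintype.card_fin, Fintype.card_bool,
      Fintype.card_fun] at hfin
    set h := 3 * r + 2 + K with hh
    have e1 : N * N ^ 2 * (h * (2 * K * 2)) ^ K * K ^ K + N * (2 * N ^ 2) * h ^ K =
        N ^ 3 * ((4 * K) ^ K * K ^ K * h ^ K + 2 * h ^ K) := by
      have : (h * (2 * K * 2)) ^ K = (4 * K) ^ K * h ^ K := by
        rw [← mul_pow]
        congr 1
        ring
      rw [this]
      ring
    rw [e1] at hfin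
    have h3 : 0 < N ^ 3 := by positivity
    have h4 : N ^ 3 * ((4 * K) ^ K * K ^ K * h ^ K + 2 * h ^ K) < N ^ 3 * N :=
      Nat.mul_lt_mul_of_pos_left hnum h3
    have h5 : N ^ 3 * N = N ^ 4 := by ring
    omega


/-- **Main theorem.** There are `c > 0` and `n₀` such that for every `n ≥ n₀` there is a
co-bipartite unit disk graph `G` with at most `n` vertices (cliques `A` and its complement) with
the following property for all `K ≤ c * log n / log (log n)`: for all labels, each consisting of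
`K` elements of a linear order, some vertex `v` outside `A` has a neighbour `u` and a
non-neighbour `u'` in `A` such that the labels of `u` and of `u'` have the same inner order
pattern and compare in the same way with the label of `v`. -/
theorem result :
    ∃ c : ℝ, 0 < c ∧ ∃ n₀ : ℕ, ∀ n : ℕ, n₀ ≤ n →
      ∃ (V : Type) (_ : Fintype V) (G : SimpleGraph V) (p : V → EuclideanSpace ℝ (Fin 2))
        (A : Set V), Fintype.card V ≤ n ∧
        (∀ u v, u ≠ v → (G.Adj u v ↔ dist (p u) (p v) ≤ 1)) ∧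
        (∀ u, u ∈ A → ∀ v, v ∈ A → u ≠ v → G.Adj u v) ∧
        (∀ u, u ∉ A → ∀ v, v ∉ A → u ≠ v → G.Adj u v) ∧
        ∀ K : ℕ, (K : ℝ) ≤ c * Real.log n / Real.log (Real.log n) →
          ∀ (α : Type) [LinearOrder α] (l : V → Fin K → α),
            ∃ u ∈ A, ∃ u' ∈ A, ∃ v, v ∉ A ∧ G.Adj u v ∧ ¬ G.Adj u' v ∧
              (∀ i j, l u i ≤ l u j ↔ l u' i ≤ l u' j) ∧
              (∀ i j, l u i ≤ l v j ↔ l u' i ≤ l v j) ∧
              (∀ i j, l v j ≤ l u i ↔ l v j ≤ l u' i) := by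
  obtain ⟨c, hc, n₀, hn₀⟩ := numQ
  refine ⟨c, hc, n₀, fun n hn => ?_⟩
  obtain ⟨h1, r, -, h2, h3⟩ := hn₀ n hn
  obtain ⟨V, iV, G, p, A, g0, g1, g2, g3, g4⟩ := main r
  refine ⟨V, iV, G, p, A, g0.le.trans h2, g1, g2, g3, ?_⟩
  intro K hK α _ l
  rcases Nat.eq_zero_or_pos K with rfl | hK0
  · obtain ⟨u, hu, u', hu', v, hv, a, b, -⟩ :=
      g4 1 one_pos (h3 1 (by simpa using h1)) ℕ (fun _ _ => 0)
    exact ⟨u, hu, u', hu', v, hv, a, b, fun i => i.elim0, fun i => i.elim0, fun i => i.elim0⟩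
  · exact g4 K hK0 (h3 K hK) α l

end Pool.Agent.Results.MP_4acde3_lc.NoComparisonLabels
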