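import Mathlib
import Pool.Agent.ImpR.Bits
import Pool.Agent.Lib.PolyTime.ToTM2

/-!
# Unit disk graphs: a clique together with points on few rational curves

Let `c` and `d` be given. The unit disk graphs whose vertex set is a clique together with
vertices that are placed on at most `c` rational plane curves of degree at most `d` have an
implicit representation. In particular this holds for the co-bipartite unit disk graphs with a
representation in which one of the two cliques lies on at most `c` rational curves of degree at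
most `d` (for instance on `c` lines); the points of the other clique are arbitrary.

The labels of an `n`-vertex graph are bit strings of one length
`L ≤ (2 * c * (8 * d + 3) + 6) * Nat.log 2 n`, and one function `F`, that depends only on `c` and
`d` and that a Turing machine computes in polynomial time, reads off adjacency from the
concatenation of two labels.

Proof: for a vertex `b` the parameters `t` of the points of one curve in the closed unit disk
around `b` are given by a polynomial inequality `f t ≤ 0` of degree at most `2 * d`. The roots of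
`f` cut the line into at most `4 * d + 1` cells on which the truth value is constant, so that
the ranks of the points of the curve in the disk form at most `4 * d + 1` intervals of ranks.
-/

set_option autoImplicit false

namespace Pool.Agent.Results.MP_4acde3_lc.RationalCurves

open Polynomial

/-- The number of elements of `Z` below `t` plus the number of elements of `Z` at most `t`. -/
noncomputable def cell (Z : Finset ℝ) (t : ℝ) : ℕ :=
  (Z.filter (fun z => z < t)).card + (Z.filter (fun z => z ≤ t)).card

lemma sub_lt (Z : Finset ℝ) {s t : ℝ} (h : s ≤ t) :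
    Z.filter (fun z => z < s) ⊆ Z.filter (fun z => z < t) := by
  intro z hz
  rw [Finset.mem_filter] at hz ⊢
  exact ⟨hz.1, lt_of_lt_of_le hz.2 h⟩

lemma sub_le (Z : Finset ℝ) {s t : ℝ} (h : s ≤ t) :
    Z.filter (fun z => z ≤ s) ⊆ Z.filter (fun z => z ≤ t) := by
  intro z hz
  rw [Finset.mem_filter] at hz ⊢
  exact ⟨hz.1, le_trans hz.2 h⟩

lemma cell_mono (Z : Finset ℝ) {s t : ℝ} (h : s ≤ t) : cell Z s ≤ cell Z t :=
  Nat.add_le_add (Finset.card_le_card (sub_lt Z h)) (Finset.card_le_card (sub_le Z h))

lemma cell_le (Z : Finset ℝ) (t : ℝ) : cell Z t ≤ 2 * Z.card := by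
  unfold cell
  have h1 := Finset.card_filter_le Z (fun z => z < t)
  have h2 := Finset.card_filter_le Z (fun z => z ≤ t)
  omega

/-- Between two points of the same cell there is no element of `Z`. -/
lemma no_mem {Z : Finset ℝ} {s t : ℝ} (h : s < t) (hc : cell Z s = cell Z t) :
    ∀ z ∈ Z, ¬ (s ≤ z ∧ z ≤ t) := by
  rintro z hz ⟨h1, h2⟩
  have a1 := Finset.card_le_card (sub_lt Z h.le)
  have a2 := Finset.card_le_card (sub_le Z h.le)
  unfold cell at hc
  rcases lt_or_eq_of_le h2 with h3 | h3
  · have e := Finset.eq_of_subset_of_card_le (sub_lt Z h.le) (by omega)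
    have hz' : z ∈ Z.filter (fun z => z < t) := Finset.mem_filter.2 ⟨hz, h3⟩
    rw [← e] at hz'
    exact absurd (Finset.mem_filter.1 hz').2 (not_lt.2 h1)
  · have e := Finset.eq_of_subset_of_card_le (sub_le Z h.le) (by omega)
    have hz' : z ∈ Z.filter (fun z => z ≤ t) := Finset.mem_filter.2 ⟨hz, h2⟩
    rw [← e] at hz'
    have := (Finset.mem_filter.1 hz').2
    rw [h3] at this
    exact absurd this (not_le.2 h)

/-- A polynomial is at most zero at both or at none of two points of the same cell. -/
lemma sign_const {f : ℝ[X]} {s t : ℝ}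
    (hc : cell f.roots.toFinset s = cell f.roots.toFinset t) :
    f.eval s ≤ 0 ↔ f.eval t ≤ 0 := by
  by_cases hf : f = 0
  · simp [hf]
  wlog hst : s ≤ t generalizing s t
  · exact (this hc.symm (le_of_not_ge hst)).symm
  rcases eq_or_lt_of_le hst with rfl | hlt
  · rfl
  have hno := no_mem hlt hc
  have hroot : ∀ z, s ≤ z → z ≤ t → f.eval z ≠ 0 := by
    intro z h1 h2 h0
    exact hno z (Multiset.mem_toFinset.2 ((mem_roots hf).2 h0)) ⟨h1, h2⟩
  have hcont : ContinuousOn (fun z => f.eval z) (Set.Icc s t) := f.continuous.continuousOn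
  constructor
  · intro h
    by_contra h'
    rw [not_le] at h'
    obtain ⟨z, hz, hz0⟩ := intermediate_value_Icc hst hcont ⟨h, h'.le⟩
    exact hroot z hz.1 hz.2 hz0
  · intro h
    by_contra h'
    rw [not_le] at h'
    obtain ⟨z, hz, hz0⟩ := intermediate_value_Icc' hst hcont ⟨h, h'.le⟩
    exact hroot z hz.1 hz.2 hz0

/-- The rank of `t` in `T`. -/
noncomputable def rk (T : Finset ℝ) (t : ℝ) : ℕ := (T.filter (fun z => z ≤ t)).card

/-- On a finite set of reals a polynomial inequality is a union of few intervals of ranks. -/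
lemma core (T : Finset ℝ) (f : ℝ[X]) (N : ℕ) (hN : 2 * f.natDegree < N) :
    ∃ lo hi : Fin N → ℕ, (∀ k, lo k ≤ T.card ∧ hi k ≤ T.card) ∧
      ∀ t ∈ T, (f.eval t ≤ 0 ↔ ∃ k, lo k < rk T t ∧ rk T t ≤ hi k) := by
  classical
  set Z := f.roots.toFinset with hZdef
  have hZ : Z.card ≤ f.natDegree := (Multiset.toFinset_card_le _).trans (card_roots' f)
  let act : ℕ → Prop := fun k => ∃ t, cell Z t = k ∧ f.eval t ≤ 0
  refine ⟨fun k => if act k then (T.filter (fun t => cell Z t < k)).card else 0,
    fun k => if act k then (T.filter (fun t => cell Z t ≤ k)).card else 0, ?_, ?_⟩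
  · intro k
    by_cases hact : act k
    · simp only [if_pos hact]
      exact ⟨Finset.card_filter_le _ _, Finset.card_filter_le _ _⟩
    · simp only [if_neg hact]
      exact ⟨Nat.zero_le _, Nat.zero_le _⟩
  · intro t ht
    constructor
    · intro hf
      have hact : act (cell Z t) := ⟨t, rfl, hf⟩
      refine ⟨⟨cell Z t, by have := cell_le Z t; omega⟩, ?_⟩
      simp only [if_pos hact]
      constructor
      · apply Finset.card_lt_card
        rw [Finset.ssubset_iff_of_subset]
        · refine ⟨t, Finset.mem_filter.2 ⟨ht, le_refl t⟩, ?_⟩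
          intro hmem
          exact absurd (Finset.mem_filter.1 hmem).2 (lt_irrefl _)
        · intro s hs
          rw [Finset.mem_filter] at hs ⊢
          refine ⟨hs.1, ?_⟩
          by_contra hlt
          rw [not_le] at hlt
          exact absurd hs.2 (not_lt.2 (cell_mono Z hlt.le))
      · apply Finset.card_le_card
        intro s hs
        rw [Finset.mem_filter] at hs ⊢
        exact ⟨hs.1, cell_mono Z hs.2⟩
    · rintro ⟨k, h1, h2⟩
      by_cases hact : act k
      · simp only [if_pos hact] at h1 h2
        have hk : cell Z t = k := by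
          rcases lt_trichotomy (cell Z t) (k : ℕ) with h | h | h
          · exfalso
            have hle : (T.filter (fun z => z ≤ t)).card
                ≤ (T.filter (fun t => cell Z t < (k : ℕ))).card := by
              apply Finset.card_le_card
              intro s hs
              rw [Finset.mem_filter] at hs ⊢
              exact ⟨hs.1, lt_of_le_of_lt (cell_mono Z hs.2) h⟩
            exact absurd h1 (not_lt.2 hle)
          · exact h
          · exfalso
            have hlt : (T.filter (fun t => cell Z t ≤ (k : ℕ))).card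
                < (T.filter (fun z => z ≤ t)).card := by
              apply Finset.card_lt_card
              rw [Finset.ssubset_iff_of_subset]
              · refine ⟨t, Finset.mem_filter.2 ⟨ht, le_refl t⟩, ?_⟩
                intro hmem
                exact absurd (Finset.mem_filter.1 hmem).2 (not_le.2 h)
              · intro s hs
                rw [Finset.mem_filter] at hs ⊢
                refine ⟨hs.1, ?_⟩
                by_contra hst
                rw [not_le] at hst
                exact absurd (lt_of_lt_of_le h (cell_mono Z hst.le)) (not_lt.2 hs.2)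
            exact absurd h2 (not_le.2 hlt)
        obtain ⟨s, hs, hfs⟩ := hact
        exact (sign_const (hs.trans hk.symm)).1 hfs
      · simp only [if_neg hact] at h1 h2
        omega

/-- The polynomial whose sign at `t` says whether the point of the rational curve
`(P / R, Q / R)` with parameter `t` lies in the closed unit disk around `b`. -/
noncomputable def diskPoly (P Q R : ℝ[X]) (b : EuclideanSpace ℝ (Fin 2)) : ℝ[X] :=
  (P - C (b 0) * R) ^ 2 + (Q - C (b 1) * R) ^ 2 - R ^ 2

lemma natDegree_diskPoly (P Q R : ℝ[X]) (b : EuclideanSpace ℝ (Fin 2)) (d : ℕ)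
    (hP : P.natDegree ≤ d) (hQ : Q.natDegree ≤ d) (hR : R.natDegree ≤ d) :
    (diskPoly P Q R b).natDegree ≤ 2 * d := by
  have h1 : ∀ (S : ℝ[X]) (x : ℝ), S.natDegree ≤ d → ((S - C x * R) ^ 2).natDegree ≤ 2 * d := by
    intro S x hS
    refine natDegree_pow_le.trans (Nat.mul_le_mul_left 2 ?_)
    refine (natDegree_sub_le _ _).trans (max_le hS ?_)
    exact (natDegree_C_mul_le _ _).trans hR
  have h2 : (R ^ 2).natDegree ≤ 2 * d := natDegree_pow_le.trans (Nat.mul_le_mul_left 2 hR)
  unfold diskPoly
  exact (natDegree_sub_le _ _).trans (max_le ((natDegree_add_le _ _).trans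
    (max_le (h1 P _ hP) (h1 Q _ hQ))) h2)

lemma dist_iff (P Q R : ℝ[X]) (t : ℝ) (q b : EuclideanSpace ℝ (Fin 2))
    (hR : R.eval t ≠ 0) (h0 : q 0 = P.eval t / R.eval t) (h1 : q 1 = Q.eval t / R.eval t) :
    dist q b ≤ 1 ↔ (diskPoly P Q R b).eval t ≤ 0 := by
  rw [EuclideanSpace.dist_eq, Real.sqrt_le_iff]
  simp only [Fin.sum_univ_two, Real.dist_eq, sq_abs, h0, h1, zero_le_one, true_and, one_pow]
  have hpos : 0 < (R.eval t) ^ 2 := by positivity
  have key : (diskPoly P Q R b).eval t = (R.eval t) ^ 2 *
      (((P.eval t / R.eval t - b 0) ^ 2 + (Q.eval t / R.eval t - b 1) ^ 2) - 1) := by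
    simp only [diskPoly, eval_sub, eval_add, eval_pow, eval_mul, eval_C]
    field_simp
  rw [key]
  constructor
  · intro h
    exact mul_nonpos_of_nonneg_of_nonpos hpos.le (by linarith)
  · intro h
    by_contra hcon
    rw [not_le] at hcon
    have := mul_pos hpos (sub_pos.2 hcon)
    linarith

/-- Let `G` be a unit disk graph on `n` vertices, and let `A` be a set of vertices such that the
vertices outside `A` form a clique and every vertex of `A` is placed on one of `c` rational
plane curves `t ↦ (P t / R t, Q t / R t)` of degree at most `d`. Then there are adjacency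
labels that consist of `c * (8 * d + 3)` numbers, each at most `n`, and two distinct vertices
are adjacent if and only if the displayed comparisons between the numbers of the two labels
hold. -/
theorem numeric (c d : ℕ) {V : Type*} [Fintype V] (G : SimpleGraph V)
    (p : V → EuclideanSpace ℝ (Fin 2))
    (hG : ∀ u v, u ≠ v → (G.Adj u v ↔ dist (p u) (p v) ≤ 1))
    (A : Set V) (hclique : ∀ u, u ∉ A → ∀ v, v ∉ A → u ≠ v → G.Adj u v)
    (P Q R : Fin c → ℝ[X])
    (hdeg : ∀ j, (P j).natDegree ≤ d ∧ (Q j).natDegree ≤ d ∧ (R j).natDegree ≤ d)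
    (hcurve : ∀ a ∈ A, ∃ (j : Fin c) (t : ℝ), (R j).eval t ≠ 0 ∧
      p a 0 = (P j).eval t / (R j).eval t ∧ p a 1 = (Q j).eval t / (R j).eval t) :
    ∃ (r : V → Fin c → ℕ) (lo hi : V → Fin c → Fin (4 * d + 1) → ℕ),
      (∀ v j, r v j ≤ Fintype.card V) ∧
      (∀ v j k, lo v j k ≤ Fintype.card V ∧ hi v j k ≤ Fintype.card V) ∧
      ∀ u v, u ≠ v → (G.Adj u v ↔
        ((∀ j, r u j = 0) ∧ (∀ j, r v j = 0)) ∨
        (∃ j k, lo v j k < r u j ∧ r u j ≤ hi v j k) ∨
        (∃ j k, lo u j k < r v j ∧ r v j ≤ hi u j k)) := by
  classical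
  -- the curve and the parameter of a vertex of `A`
  have hch : ∀ a : V, ∃ x : Option (Fin c) × ℝ, (a ∉ A → x.1 = none) ∧
      (a ∈ A → ∃ j, x.1 = some j ∧ (R j).eval x.2 ≠ 0 ∧
        p a 0 = (P j).eval x.2 / (R j).eval x.2 ∧ p a 1 = (Q j).eval x.2 / (R j).eval x.2) := by
    intro a
    by_cases ha : a ∈ A
    · obtain ⟨j, t, h⟩ := hcurve a ha
      exact ⟨(some j, t), fun h' => absurd ha h', fun _ => ⟨j, rfl, h⟩⟩
    · exact ⟨(none, 0), fun _ => rfl, fun h' => absurd h' ha⟩
  choose x hxn hxs using hch
  let T : Fin c → Finset ℝ := fun j =>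
    ((Finset.univ : Finset V).filter (fun a => (x a).1 = some j)).image (fun a => (x a).2)
  have hTcard : ∀ j, (T j).card ≤ Fintype.card V := fun j =>
    Finset.card_image_le.trans ((Finset.card_filter_le _ _).trans (le_of_eq Finset.card_univ))
  have hcore : ∀ (v : V) (j : Fin c), ∃ lo hi : Fin (4 * d + 1) → ℕ,
      (∀ k, lo k ≤ (T j).card ∧ hi k ≤ (T j).card) ∧
      ∀ t ∈ T j, ((diskPoly (P j) (Q j) (R j) (p v)).eval t ≤ 0 ↔
        ∃ k, lo k < rk (T j) t ∧ rk (T j) t ≤ hi k) := by
    intro v j
    apply core
    have := natDegree_diskPoly (P j) (Q j) (R j) (p v) d (hdeg j).1 (hdeg j).2.1 (hdeg j).2.2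
    omega
  choose lo hi hb hcell using hcore
  let r : V → Fin c → ℕ := fun v j => if (x v).1 = some j then rk (T j) (x v).2 else 0
  -- adjacency with a vertex of `A`
  have hmain : ∀ u, u ∈ A → ∀ v, (dist (p u) (p v) ≤ 1 ↔
      ∃ j k, lo v j k < r u j ∧ r u j ≤ hi v j k) := by
    intro u hu v
    obtain ⟨j, hj, hR, h0, h1⟩ := hxs u hu
    have hmem : (x u).2 ∈ T j :=
      Finset.mem_image.2 ⟨u, Finset.mem_filter.2 ⟨Finset.mem_univ _, hj⟩, rfl⟩
    rw [dist_iff (P j) (Q j) (R j) (x u).2 (p u) (p v) hR h0 h1, hcell v j _ hmem]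
    constructor
    · rintro ⟨k, hk⟩
      refine ⟨j, k, ?_⟩
      simp only [r, if_pos hj]
      exact hk
    · rintro ⟨j', k, hk⟩
      by_cases hj' : (x u).1 = some j'
      · have : j = j' := by
          rw [hj] at hj'
          exact Option.some.inj hj'
        subst this
        simp only [r, if_pos hj] at hk
        exact ⟨k, hk⟩
      · simp only [r, if_neg hj'] at hk
        omega
  have hzero : ∀ u, u ∉ A → ∀ j, r u j = 0 := by
    intro u hu j
    simp only [r, hxn u hu]
    simp
  have hnonzero : ∀ u, u ∈ A → ∃ j, r u j ≠ 0 := by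
    intro u hu
    obtain ⟨j, hj, -⟩ := hxs u hu
    have hmem : (x u).2 ∈ T j :=
      Finset.mem_image.2 ⟨u, Finset.mem_filter.2 ⟨Finset.mem_univ _, hj⟩, rfl⟩
    refine ⟨j, ?_⟩
    simp only [r, if_pos hj]
    exact Finset.card_ne_zero_of_mem (Finset.mem_filter.2 ⟨hmem, le_refl _⟩)
  refine ⟨r, lo, hi, ?_, ?_, ?_⟩
  · intro v j
    by_cases hj : (x v).1 = some j
    · simp only [r, if_pos hj]
      exact (Finset.card_filter_le _ _).trans (hTcard j)
    · simp only [r, if_neg hj]
      exact Nat.zero_le _
  · intro v j k
    exact ⟨(hb v j k).1.trans (hTcard j), (hb v j k).2.trans (hTcard j)⟩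
  · intro u v huv
    by_cases hu : u ∈ A
    · by_cases hv : v ∈ A
      · rw [hG u v huv]
        constructor
        · intro h
          exact Or.inr (Or.inl ((hmain u hu v).1 h))
        · rintro (⟨h, -⟩ | h | h)
          · obtain ⟨j, hj⟩ := hnonzero u hu
            exact absurd (h j) hj
          · exact (hmain u hu v).2 h
          · rw [dist_comm]
            exact (hmain v hv u).2 h
      · rw [hG u v huv]
        constructor
        · intro h
          exact Or.inr (Or.inl ((hmain u hu v).1 h))
        · rintro (⟨h, -⟩ | h | ⟨j, k, h, -⟩)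
          · obtain ⟨j, hj⟩ := hnonzero u hu
            exact absurd (h j) hj
          · exact (hmain u hu v).2 h
          · rw [hzero v hv j] at h
            omega
    · by_cases hv : v ∈ A
      · rw [hG u v huv]
        constructor
        · intro h
          rw [dist_comm] at h
          exact Or.inr (Or.inr ((hmain v hv u).1 h))
        · rintro (⟨-, h⟩ | ⟨j, k, h, -⟩ | h)
          · obtain ⟨j, hj⟩ := hnonzero v hv
            exact absurd (h j) hj
          · rw [hzero u hu j] at h
            omega
          · rw [dist_comm]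
            exact (hmain v hv u).2 h
      · constructor
        · intro _
          exact Or.inl ⟨hzero u hu, hzero v hv⟩
        · intro _
          exact hclique u hu v hv huv

/-! ### Bit strings -/

open Pool.Agent.Lib.PT Pool.Agent.ImpR

/-- the second label in the concatenation of two labels of one graph -/
def second (m : ℕ) (z : List Bool) : List Bool := z.drop (lead z + 1 + m * lead z)

/-- the decoder of the Boolean function `D` of comparisons -/
def decoder {m : ℕ} (D : (Fin m → Fin m → Bool) → (Fin m → Fin m → Bool) → Bool)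
    (z : List Bool) : List Bool :=
  [D (fun i j => ble (fld i z) (fld j (second m z)))
    (fun i j => ble (fld i (second m z)) (fld j z))]

lemma polyTime_second (m : ℕ) : PolyTime (second m) := by
  have h := polyTime_lead (PolyTime.id (α := List Bool))
  exact PolyTime.drop ((h.add (PolyTime.const 1)).add ((PolyTime.const m).mul h)) PolyTime.id

lemma polyTime_decoder {m : ℕ} (D : (Fin m → Fin m → Bool) → (Fin m → Fin m → Bool) → Bool) :
    PolyTime (decoder D) := by
  have h := polyTime_boolean₂ D
    (fun i j (z : List Bool) => ble (fld i z) (fld j (second m z)))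
    (fun i j (z : List Bool) => ble (fld i (second m z)) (fld j z))
    (fun i j => PolyTime.ble (polyTime_fld _ PolyTime.id) (polyTime_fld _ (polyTime_second m)))
    (fun i j => PolyTime.ble (polyTime_fld _ (polyTime_second m)) (polyTime_fld _ PolyTime.id))
  exact PolyTime.cons h (PolyTime.const [])

lemma lead_append (m w : ℕ) (N : ℕ → ℕ) (y : List Bool) : lead (lab m w N ++ y) = w := by
  unfold lab
  rw [List.append_assoc, List.cons_append]
  exact lead_eq _ _

lemma fld_append {m w : ℕ} {N : ℕ → ℕ} (hN : ∀ i < m, N i < 2 ^ w) {i : ℕ} (hi : i < m)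
    (y : List Bool) : fld i (lab m w N ++ y) = fld i (lab m w N) := by
  have h0 : lead (lab m w N) = w := lead_eq _ _
  have hlen := length_lab hN
  have him : (i + 1) * w ≤ m * w := Nat.mul_le_mul_right _ hi
  have him' : (i + 1) * w = i * w + w := by ring
  unfold fld
  rw [lead_append, h0]
  rw [List.drop_append_of_le_length (by omega)]
  rw [List.take_append_of_le_length (by rw [List.length_drop]; omega)]

lemma second_append {m w : ℕ} {N : ℕ → ℕ} (hN : ∀ i < m, N i < 2 ^ w) (y : List Bool) :
    second m (lab m w N ++ y) = y := by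
  unfold second
  rw [lead_append, ← length_lab hN, List.drop_left]

/-- From numeric labels to bit strings of one length, the decoder reads the concatenation. -/
theorem bits {m : ℕ} (D : (Fin m → Fin m → Bool) → (Fin m → Fin m → Bool) → Bool) :
    ∃ F : List Bool → List Bool,
      Nonempty (Turing.TM2ComputableInPolyTime (fun w : List Bool => w)
        (fun w : List Bool => w) F) ∧
      ∀ (V : Type) [Fintype V] (N : V → Fin m → ℕ), (∀ v i, N v i ≤ Fintype.card V) →
        ∃ (l : V → List Bool) (L : ℕ), L ≤ 2 * (m + 2) * Nat.log 2 (Fintype.card V) ∧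
          (∀ v, (l v).length = L) ∧
          ∀ u v, u ≠ v → F (l u ++ l v) = [D (ImpR.cmp (N u) (N v)) (ImpR.cmp (N v) (N u))] := by
  refine ⟨decoder D, Pool.Agent.Lib.PT.ToTM2.polyTime_toTM2 _ (polyTime_decoder D), ?_⟩
  intro V _ N hN
  set n := Fintype.card V with hn
  by_cases h2 : n < 2
  · refine ⟨fun _ => [], 0, Nat.zero_le _, fun v => rfl, fun u v huv => ?_⟩
    exact absurd (Fintype.card_le_one_iff.1 (by omega) u v) huv
  · rw [not_lt] at h2
    set w := Nat.size n with hw
    let M : V → ℕ → ℕ := fun v i => if h : i < m then N v ⟨i, h⟩ else 0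
    have hM : ∀ v, ∀ i < m, M v i < 2 ^ w := by
      intro v i hi
      have h1 : M v i = N v ⟨i, hi⟩ := by simp [M, hi]
      rw [h1]
      exact (hN v _).trans_lt (Nat.lt_size_self n)
    have hfld : ∀ v (i : Fin m), bval (fld i (lab m w (M v))) = N v i := by
      intro v i
      rw [fld_lab (hM v) i.2]
      simp [M]
    refine ⟨fun v => lab m w (M v), w + 1 + m * w, ?_, fun v => length_lab (hM v), ?_⟩
    · have h3 : w ≤ Nat.log 2 n + 1 := by
        rw [hw, Nat.size_le]
        exact Nat.lt_pow_succ_log_self (by norm_num) n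
      have h4 : 1 ≤ Nat.log 2 n := Nat.log_pos (by norm_num) h2
      have h5 : w ≤ 2 * Nat.log 2 n := by omega
      have h6 : m * w ≤ m * (2 * Nat.log 2 n) := Nat.mul_le_mul_left _ h5
      nlinarith
    · intro u v _
      unfold decoder
      rw [second_append (hM u)]
      congr 1
      congr 1
      · funext i j
        rw [ble_eq, fld_append (hM u) i.2, hfld, hfld]
        rfl
      · funext i j
        rw [ble_eq, fld_append (hM u) j.2, hfld, hfld]
        rfl

/-- **Main theorem.** For all `c` and `d` there is one function `F` on bit strings, computed by a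
Turing machine in polynomial time, with the following property. Let `G` be a unit disk graph
on `n` vertices with representation `p`, and let `A` be a set of vertices such that the vertices
outside `A` form a clique and every vertex of `A` is placed on one of `c` rational plane curves
`t ↦ (P t / R t, Q t / R t)` of degree at most `d`. Then the vertices of `G` have labels, bit
strings of one length `L ≤ (2 * c * (8 * d + 3) + 6) * Nat.log 2 n`, such that for distinct
vertices `u` and `v` the value of `F` at the concatenation of the labels of `u` and `v` is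
`[true]` if they are adjacent and `[false]` if they are not. -/
theorem result (c d : ℕ) :
    ∃ F : List Bool → List Bool,
      Nonempty (Turing.TM2ComputableInPolyTime (fun w : List Bool => w)
        (fun w : List Bool => w) F) ∧
      ∀ (V : Type) [Fintype V] (G : SimpleGraph V) (p : V → EuclideanSpace ℝ (Fin 2)),
        (∀ u v, u ≠ v → (G.Adj u v ↔ dist (p u) (p v) ≤ 1)) →
        ∀ A : Set V, (∀ u, u ∉ A → ∀ v, v ∉ A → u ≠ v → G.Adj u v) →
        ∀ P Q R : Fin c → ℝ[X],
        (∀ j, (P j).natDegree ≤ d ∧ (Q j).natDegree ≤ d ∧ (R j).natDegree ≤ d) →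
        (∀ a ∈ A, ∃ (j : Fin c) (t : ℝ), (R j).eval t ≠ 0 ∧
          p a 0 = (P j).eval t / (R j).eval t ∧ p a 1 = (Q j).eval t / (R j).eval t) →
        ∃ (l : V → List Bool) (L : ℕ),
          L ≤ (2 * c * (8 * d + 3) + 6) * Nat.log 2 (Fintype.card V) ∧
          (∀ v, (l v).length = L) ∧
          ∀ u v, u ≠ v →
            (G.Adj u v → F (l u ++ l v) = [true]) ∧
            (¬ G.Adj u v → F (l u ++ l v) = [false]) := by
  classical
  let I : Type := Option (Fin c ⊕ ((Fin c × Fin (4 * d + 1)) ⊕ (Fin c × Fin (4 * d + 1))))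
  have hcard : Fintype.card I = c * (8 * d + 3) + 1 := by
    simp only [I, Fintype.card_option, Fintype.card_sum, Fintype.card_prod, Fintype.card_fin]
    ring
  let e : I ≃ Fin (c * (8 * d + 3) + 1) := Fintype.equivFinOfCardEq hcard
  let er : Fin c → Fin (c * (8 * d + 3) + 1) := fun j => e (some (Sum.inl j))
  let el : Fin c → Fin (4 * d + 1) → Fin (c * (8 * d + 3) + 1) :=
    fun j k => e (some (Sum.inr (Sum.inl (j, k))))
  let eh : Fin c → Fin (4 * d + 1) → Fin (c * (8 * d + 3) + 1) :=
    fun j k => e (some (Sum.inr (Sum.inr (j, k))))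
  let z : Fin (c * (8 * d + 3) + 1) := e none
  let D : (Fin (c * (8 * d + 3) + 1) → Fin (c * (8 * d + 3) + 1) → Bool) →
      (Fin (c * (8 * d + 3) + 1) → Fin (c * (8 * d + 3) + 1) → Bool) → Bool :=
    fun x y => decide (((∀ j, x (er j) z = true) ∧ (∀ j, y (er j) z = true)) ∨
      (∃ j k, x (er j) (el j k) = false ∧ x (er j) (eh j k) = true) ∨
      (∃ j k, y (er j) (el j k) = false ∧ y (er j) (eh j k) = true))
  obtain ⟨F, hF, hmain⟩ := bits D
  refine ⟨F, hF, ?_⟩
  intro V _ G p hG A hclique P Q R hdeg hcurve
  obtain ⟨r, lo, hi, hr, hlh, hadj⟩ := numeric c d G p hG A hclique P Q R hdeg hcurve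
  let N0 : V → I → ℕ := fun v i => match i with
    | none => 0
    | some (Sum.inl j) => r v j
    | some (Sum.inr (Sum.inl (j, k))) => lo v j k
    | some (Sum.inr (Sum.inr (j, k))) => hi v j k
  let N : V → Fin (c * (8 * d + 3) + 1) → ℕ := fun v i => N0 v (e.symm i)
  have hNb : ∀ v i, N v i ≤ Fintype.card V := by
    intro v i
    show N0 v (e.symm i) ≤ _
    rcases e.symm i with _ | (j | (⟨j, k⟩ | ⟨j, k⟩))
    · exact Nat.zero_le _
    · exact hr v j
    · exact (hlh v j k).1
    · exact (hlh v j k).2
  have hNz : ∀ v, N v z = 0 := by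
    intro v
    show N0 v (e.symm (e none)) = 0
    rw [Equiv.symm_apply_apply]
  have hNr : ∀ v j, N v (er j) = r v j := by
    intro v j
    show N0 v (e.symm (e (some (Sum.inl j)))) = r v j
    rw [Equiv.symm_apply_apply]
  have hNl : ∀ v j k, N v (el j k) = lo v j k := by
    intro v j k
    show N0 v (e.symm (e (some (Sum.inr (Sum.inl (j, k)))))) = lo v j k
    rw [Equiv.symm_apply_apply]
  have hNh : ∀ v j k, N v (eh j k) = hi v j k := by
    intro v j k
    show N0 v (e.symm (e (some (Sum.inr (Sum.inr (j, k)))))) = hi v j k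
    rw [Equiv.symm_apply_apply]
  obtain ⟨l, L, hL, hlen, hl⟩ := hmain V N hNb
  refine ⟨l, L, ?_, hlen, ?_⟩
  · refine hL.trans (le_of_eq ?_)
    congr 1
    ring
  · intro u v huv
    have hD : D (ImpR.cmp (N u) (N v)) (ImpR.cmp (N v) (N u)) = true ↔ G.Adj u v := by
      rw [hadj u v huv]
      simp only [D, ImpR.cmp, decide_eq_true_eq, decide_eq_false_iff_not, hNz, hNr, hNl, hNh,
        Nat.le_zero, not_le]
    constructor
    · intro h
      rw [hl u v huv, hD.2 h]
    · intro h
      rw [hl u v huv]
      have : D (ImpR.cmp (N u) (N v)) (ImpR.cmp (N v) (N u)) = false := by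
        rw [← Bool.not_eq_true]
        exact fun h' => h (hD.1 h')
      rw [this]

end Pool.Agent.Results.MP_4acde3_lc.RationalCurves
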